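import Pool.Agent.W601.SQ.Stm

/-! Cantor sets of small solutions. -/

set_option autoImplicit false

open Cardinal

namespace Pool.Agent.W585.SQ

open Pool.Agent.W601.SQ

theorem nm_le_abs (y : ℝ) : nm y ≤ |y| := by
  unfold nm
  rw [UnitAddCircle.norm_eq]
  have := round_le y 0
  simpa using this

theorem canl : S_CAN → S_CANL := by
  intro hC t ε hε h
  rcases h with ⟨C, hCb⟩ | hL
  · have hC0 : (0 : ℝ) ≤ C := by
      have h1 : (0 : ℤ) ≤ C := (abs_nonneg (t 0)).trans (hCb 0)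
      exact_mod_cast h1
    have hsub : Set.Icc (0 : ℝ) (ε / (C + 1)) ⊆ {y : ℝ | ∀ j, nm ((t j : ℝ) * y) ≤ ε} := by
      rintro y ⟨hy0, hy1⟩ j
      refine (nm_le_abs _).trans ?_
      rw [abs_mul, abs_of_nonneg hy0]
      have h2 : |(t j : ℝ)| ≤ C := by
        have := hCb j
        exact_mod_cast this
      have h3 : y * (C + 1) ≤ ε := (le_div_iff₀ (by linarith)).1 hy1
      nlinarith
    have h4 : 𝔠 = #(Set.Icc (0 : ℝ) (ε / (C + 1))) :=
      (Cardinal.mk_Icc_real (by positivity)).symm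
    rw [h4]
    exact Cardinal.mk_le_mk_of_subset hsub
  · obtain ⟨e, he⟩ : ∃ e, e = min ε (1 / 4) := ⟨_, rfl⟩
    have he0 : 0 < e := by rw [he]; exact lt_min hε (by norm_num)
    have he1 : e ≤ 1 / 4 := by rw [he]; exact min_le_right _ _
    have he2 : e ≤ ε := by rw [he]; exact min_le_left _ _
    obtain ⟨j1, hj1⟩ := hL (4 / e)
    obtain ⟨i0, hi0, hmax⟩ := Finset.exists_max_image (Finset.range (j1 + 1))
      (fun i => |(t i : ℝ)|) ⟨j1, Finset.mem_range.2 (Nat.lt_succ_self _)⟩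
    rw [Finset.mem_range] at hi0
    obtain ⟨M, hM⟩ : ∃ M, M = |(t i0 : ℝ)| := ⟨_, rfl⟩
    rw [← hM] at hmax
    have hM0 : 0 < M := by
      have h1 := hmax j1 (Finset.mem_range.2 (Nat.lt_succ_self _))
      have h2 : (t j1 : ℝ) ≠ 0 := by
        have := (hj1 j1 le_rfl).1
        exact_mod_cast this
      exact lt_of_lt_of_le (abs_pos.2 h2) h1
    have hgr : 4 / e * M ≤ |(t (j1 + 1) : ℝ)| := by
      rw [hM]
      exact (hj1 (j1 + 1) (by omega)).2 i0 hi0
    have hcan := hC (fun j => t (j1 + 1 + j)) (fun _ => 0) e (-(e / M)) (e / M) he0 he1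
      (hj1 (j1 + 1 + 0) (by omega)).1
      (fun j => (hj1 (j1 + 1 + (j + 1)) (by omega)).2 (j1 + 1 + j) (by omega))
      (by
        change 4 ≤ |(t (j1 + 1) : ℝ)| * (e / M - -(e / M))
        have h5 : e / M - -(e / M) = 2 * (e / M) := by ring
        rw [h5]
        have h6 : (4 / e * M) * (2 * (e / M)) = 8 := by field_simp; norm_num
        have h7 : (4 / e * M) * (2 * (e / M)) ≤ |(t (j1 + 1) : ℝ)| * (2 * (e / M)) :=
          mul_le_mul_of_nonneg_right hgr (by positivity)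
        linarith)
    refine hcan.trans (Cardinal.mk_le_mk_of_subset ?_)
    rintro y ⟨hy1, hy2, hy3⟩ i
    rcases lt_or_ge i (j1 + 1) with hi | hi
    · refine (nm_le_abs _).trans (le_trans ?_ he2)
      rw [abs_mul]
      have h8 := hmax i (Finset.mem_range.2 hi)
      have h9 : |y| ≤ e / M := abs_le.2 ⟨hy1, hy2⟩
      calc |(t i : ℝ)| * |y| ≤ M * (e / M) := mul_le_mul h8 h9 (abs_nonneg _) hM0.le
        _ = e := by field_simp
    · have h10 := hy3 (i - (j1 + 1))
      simp only [sub_zero] at h10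
      rw [Nat.add_sub_cancel' hi] at h10
      exact h10.trans he2

end Pool.Agent.W585.SQ
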